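import Pool.Agent.Helper70.DK.Defs2

/-!
# MP_b1773a_an: measure of the parameters without the Diophantine property
-/

set_option autoImplicit false

namespace Pool.Agent.Helper70.DK

open Finset MeasureTheory

theorem dmeas_det (hS : ST_SUBL) (r : ℕ) (hr : 1 ≤ r) (A : Matrix (Fin r) (Fin r) ℝ)
    (D : Matrix (Fin r) (Fin r) ℤ) (hD : D.det ≠ 0) (ε : ℝ) (hε : 0 < ε) :
    volume {t : ℝ | |(Matrix.of fun x y => A x y + t * ((D x y : ℤ) : ℝ)).det| < ε} ≤
      ENNReal.ofReal (2 * r * ε ^ ((1 : ℝ) / r)) := by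
  set D' : Matrix (Fin r) (Fin r) ℝ := D.map (Int.castRingHom ℝ) with hD'
  have hdet : D'.det = ((D.det : ℤ) : ℝ) := by
    have h := (Int.castRingHom ℝ).map_det D
    rw [hD']
    exact h.symm
  set p : Polynomial ℝ := Matrix.det ((Polynomial.X : Polynomial ℝ) • D'.map Polynomial.C +
    A.map Polynomial.C) with hp
  have hle : p.natDegree ≤ r := by
    have := Polynomial.natDegree_det_X_add_C_le D' A
    rwa [Fintype.card_fin] at this
  have hco : p.coeff r = D'.det := by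
    have := Polynomial.coeff_det_X_add_C_card D' A
    rwa [Fintype.card_fin] at this
  have hne : p.coeff r ≠ 0 := by
    rw [hco, hdet]
    exact_mod_cast hD
  have hdeg : p.natDegree = r := le_antisymm hle (Polynomial.le_natDegree_of_ne_zero hne)
  have hlead : 1 ≤ |p.leadingCoeff| := by
    rw [Polynomial.leadingCoeff, hdeg, hco, hdet]
    have := Int.one_le_abs hD
    exact_mod_cast this
  have heval : ∀ t : ℝ, p.eval t =
      (Matrix.of fun x y => A x y + t * ((D x y : ℤ) : ℝ)).det := by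
    intro t
    have h := (Polynomial.evalRingHom t).map_det ((Polynomial.X : Polynomial ℝ) •
      D'.map Polynomial.C + A.map Polynomial.C)
    rw [Polynomial.coe_evalRingHom] at h
    rw [hp, h]
    congr 1
    ext x y
    simp only [RingHom.mapMatrix_apply, Matrix.map_apply, Matrix.add_apply, Matrix.smul_apply,
      smul_eq_mul, Polynomial.coe_evalRingHom, Polynomial.eval_add, Polynomial.eval_mul,
      Polynomial.eval_X, Polynomial.eval_C, Matrix.of_apply, hD', eq_intCast]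
    ring
  have hmain := hS p ε hlead (by rw [hdeg]; exact hr) hε
  rw [hdeg] at hmain
  refine le_trans (measure_mono ?_) hmain
  intro t ht
  have ht' : |(Matrix.of fun x y => A x y + t * ((D x y : ℤ) : ℝ)).det| < ε := ht
  show |p.eval t| < ε
  rw [heval]
  exact ht'

theorem dmeas_P {m : ℕ} {ι : Type} (σ : Sys m ι) (B : ℕ) (t : ℝ) (i n : ℕ) (u : Fin n → ι)
    (c : Fin m) : σ.P B t i n u c = σ.P B 0 i n u c + t * ((σ.D B i n u c : ℤ) : ℝ) := by
  unfold Sys.P Sys.D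
  push_cast
  rw [Finset.mul_sum, ← Finset.sum_add_distrib]
  refine Finset.sum_congr rfl fun q _ => ?_
  ring

theorem dmeas_pow (m K B r n : ℕ) (hB : 2 ≤ B) (hr : 1 ≤ r) (hrm : r ≤ m) :
    ((((B : ℝ) ^ (m * (2 * m ^ 2 + K) * n))⁻¹) ^ ((1 : ℝ) / r)) ≤
      ((B : ℝ) ^ ((2 * m ^ 2 + K) * n))⁻¹ := by
  have hB1 : (1 : ℝ) ≤ B := by
    have : 1 ≤ B := by omega
    exact_mod_cast this
  have hB0 : (0 : ℝ) < B := by linarith
  have hr0 : (0 : ℝ) < r := by exact_mod_cast hr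
  have h1 : ((B : ℝ) ^ (m * (2 * m ^ 2 + K) * n)) ^ ((1 : ℝ) / r) ≥
      (B : ℝ) ^ ((2 * m ^ 2 + K) * n) := by
    rw [ge_iff_le, ← Real.rpow_natCast, ← Real.rpow_natCast, ← Real.rpow_mul hB0.le]
    refine Real.rpow_le_rpow_of_exponent_le hB1 ?_
    rw [mul_one_div, le_div_iff₀ hr0]
    have h2 : (2 * m ^ 2 + K) * n * r ≤ m * (2 * m ^ 2 + K) * n := by
      calc (2 * m ^ 2 + K) * n * r ≤ (2 * m ^ 2 + K) * n * m := Nat.mul_le_mul_left _ hrm
        _ = m * (2 * m ^ 2 + K) * n := by ring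
    exact_mod_cast h2
  rw [Real.inv_rpow (by positivity)]
  exact inv_anti₀ (by positivity) h1

theorem st_DMEAS (hS : ST_SUBL) : ST_DMEAS := by
  classical
  intro m K B ι _ σ i n hm hB hι
  have hB1 : (1 : ℝ) ≤ B := by
    have : 1 ≤ B := by omega
    exact_mod_cast this
  have hB0 : (0 : ℝ) < B := by linarith
  have hm1 : (1 : ℝ) ≤ m := by exact_mod_cast hm
  have hm0 : (0 : ℝ) < m := by linarith
  set C : ℕ := m * (2 * m ^ 2 + K) with hC
  set ε : ℝ := ((B : ℝ) ^ (C * n))⁻¹ with hε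
  have hε0 : 0 < ε := by rw [hε]; positivity
  set Q : ℝ := 2 * m * ((B : ℝ) ^ ((2 * m ^ 2 + K) * n))⁻¹ with hQ
  have hQ0 : 0 ≤ Q := by rw [hQ]; positivity
  -- the bad set of one minor
  let S : (r : ℕ) → ((Fin r → Fin n → ι) × (Fin r → Fin n → ι) × (Fin r → Fin m)) → Set ℝ :=
    fun r w => {t | (Matrix.of fun x y : Fin r => σ.D B i n (w.1 x) (w.2.2 y) -
        σ.D B i n (w.2.1 x) (w.2.2 y)).det ≠ 0 ∧
      |(Matrix.of fun x y : Fin r => σ.P B t i n (w.1 x) (w.2.2 y) -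
        σ.P B t i n (w.2.1 x) (w.2.2 y)).det| < ε}
  have hone : ∀ r ∈ Finset.Icc 1 m, ∀ w, volume (S r w) ≤ ENNReal.ofReal Q := by
    intro r hr w
    rw [Finset.mem_Icc] at hr
    by_cases hD : (Matrix.of fun x y : Fin r => σ.D B i n (w.1 x) (w.2.2 y) -
        σ.D B i n (w.2.1 x) (w.2.2 y)).det ≠ 0
    · have h1 := dmeas_det hS r hr.1 (Matrix.of fun x y : Fin r => σ.P B 0 i n (w.1 x) (w.2.2 y) -
        σ.P B 0 i n (w.2.1 x) (w.2.2 y)) _ hD ε hε0
      have h2 : S r w ⊆ {t : ℝ | |(Matrix.of fun x y : Fin r =>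
          (Matrix.of fun x y : Fin r => σ.P B 0 i n (w.1 x) (w.2.2 y) -
            σ.P B 0 i n (w.2.1 x) (w.2.2 y)) x y +
          t * (((Matrix.of fun x y : Fin r => σ.D B i n (w.1 x) (w.2.2 y) -
            σ.D B i n (w.2.1 x) (w.2.2 y)) x y : ℤ) : ℝ)).det| < ε} := by
        rintro t ⟨-, ht⟩
        have e : (Matrix.of fun x y : Fin r => σ.P B t i n (w.1 x) (w.2.2 y) -
            σ.P B t i n (w.2.1 x) (w.2.2 y)) = (Matrix.of fun x y : Fin r =>
          (Matrix.of fun x y : Fin r => σ.P B 0 i n (w.1 x) (w.2.2 y) -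
            σ.P B 0 i n (w.2.1 x) (w.2.2 y)) x y +
          t * (((Matrix.of fun x y : Fin r => σ.D B i n (w.1 x) (w.2.2 y) -
            σ.D B i n (w.2.1 x) (w.2.2 y)) x y : ℤ) : ℝ)) := by
          ext x y
          simp only [Matrix.of_apply]
          rw [dmeas_P σ B t i n (w.1 x), dmeas_P σ B t i n (w.2.1 x)]
          push_cast
          ring
        rw [e] at ht
        exact ht
      refine le_trans (measure_mono h2) (le_trans h1 (ENNReal.ofReal_le_ofReal ?_))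
      have h3 := dmeas_pow m K B r n hB hr.1 hr.2
      have hrm : (r : ℝ) ≤ m := by exact_mod_cast hr.2
      rw [hQ]
      refine mul_le_mul ?_ h3 (by positivity) (by positivity)
      linarith
    · have h1 : S r w = ∅ := by
        rw [Set.eq_empty_iff_forall_notMem]
        rintro t ⟨ht, -⟩
        exact hD ht
      rw [h1, measure_empty]
      exact zero_le
  have hsub : {t : ℝ | ¬ σ.Dio B C t i n} ⊆ ⋃ r ∈ Finset.Icc 1 m, ⋃ w, S r w := by
    intro t ht
    have ht' : ¬ σ.Dio B C t i n := ht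
    unfold Sys.Dio at ht'
    push Not at ht'
    obtain ⟨r, hr1, hr2, u, v, s, hD, hP⟩ := ht'
    rw [Set.mem_iUnion₂]
    refine ⟨r, Finset.mem_Icc.mpr ⟨hr1, hr2⟩, ?_⟩
    rw [Set.mem_iUnion]
    exact ⟨(u, v, s), hD, hP⟩
  have hcardι : (Fintype.card ι : ℝ) ≤ (B : ℝ) ^ m := by exact_mod_cast hι
  have hcount : ∀ r ∈ Finset.Icc 1 m, volume (⋃ w, S r w) ≤
      ENNReal.ofReal ((B : ℝ) ^ (2 * m ^ 2 * n) * (m : ℝ) ^ m * Q) := by
    intro r hr
    have hr' := Finset.mem_Icc.mp hr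
    refine le_trans (measure_iUnion_fintype_le _ _) ?_
    refine le_trans (Finset.sum_le_sum fun w _ => hone r hr w) ?_
    rw [Finset.sum_const, Finset.card_univ, nsmul_eq_mul, ← ENNReal.ofReal_natCast,
      ← ENNReal.ofReal_mul (Nat.cast_nonneg _)]
    refine ENNReal.ofReal_le_ofReal (mul_le_mul_of_nonneg_right ?_ hQ0)
    rw [Fintype.card_prod, Fintype.card_prod, Fintype.card_fun, Fintype.card_fun, Fintype.card_fun,
      Fintype.card_fin, Fintype.card_fin, Fintype.card_fin]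
    push_cast
    have h1 : (((Fintype.card ι : ℝ) ^ n) ^ r) ≤ (B : ℝ) ^ (m ^ 2 * n) := by
      calc ((Fintype.card ι : ℝ) ^ n) ^ r ≤ (((B : ℝ) ^ m) ^ n) ^ r :=
            pow_le_pow_left₀ (by positivity) (pow_le_pow_left₀ (by positivity) hcardι n) r
        _ = (B : ℝ) ^ (m * n * r) := by rw [← pow_mul, ← pow_mul, mul_assoc]
        _ ≤ (B : ℝ) ^ (m ^ 2 * n) := by
            refine pow_le_pow_right₀ hB1 ?_
            calc m * n * r ≤ m * n * m := Nat.mul_le_mul_left _ hr'.2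
              _ = m ^ 2 * n := by ring
    have h2 : (m : ℝ) ^ r ≤ (m : ℝ) ^ m := pow_le_pow_right₀ hm1 hr'.2
    calc ((Fintype.card ι : ℝ) ^ n) ^ r * (((Fintype.card ι : ℝ) ^ n) ^ r * (m : ℝ) ^ r)
        ≤ (B : ℝ) ^ (m ^ 2 * n) * ((B : ℝ) ^ (m ^ 2 * n) * (m : ℝ) ^ m) := by
          refine mul_le_mul h1 (mul_le_mul h1 h2 (by positivity) (by positivity)) (by positivity)
            (by positivity)
      _ = (B : ℝ) ^ (2 * m ^ 2 * n) * (m : ℝ) ^ m := by
          rw [← mul_assoc, ← pow_add]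
          congr 2
          ring
  refine le_trans (measure_mono hsub) ?_
  refine le_trans (measure_biUnion_finset_le _ _) ?_
  refine le_trans (Finset.sum_le_sum hcount) ?_
  rw [Finset.sum_const, Nat.card_Icc, Nat.add_sub_cancel, nsmul_eq_mul, ← ENNReal.ofReal_natCast,
    ← ENNReal.ofReal_mul (Nat.cast_nonneg _)]
  refine ENNReal.ofReal_le_ofReal (le_of_eq ?_)
  rw [hQ]
  have e : (2 * m ^ 2 + K) * n = 2 * m ^ 2 * n + K * n := by ring
  rw [e, pow_add, mul_inv]
  have hb1 : (B : ℝ) ^ (2 * m ^ 2 * n) ≠ 0 := by positivity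
  have hb2 : (B : ℝ) ^ (K * n) ≠ 0 := by positivity
  rw [pow_add (m : ℝ) m 2]
  field_simp

end Pool.Agent.Helper70.DK
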